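import Pool.Agent.H58.ST.Asym
import Pool.Graph.R_pool_sql_team_seeded_b677cdb8.E8helper70.Sph.Struct

/-!
# Symmetries of codes of nearly maximal size: the gap
-/

set_option autoImplicit false
set_option linter.unusedSectionVars false

open Module Filter
open scoped InnerProductSpace

namespace Pool.Agent.H58.SG

open Pool.Agent.H58.ST Pool.Agent.E8helper70.Sph

/-- the points which are moved inside of the code have a large component in the big space -/
lemma energy_of_moved {n : ℕ} {s : ℝ} (h1 : s < 1) {X : Finset (EuclideanSpace ℝ (Fin n))}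
    (hX : IsCode n s X) {g : EuclideanSpace ℝ (Fin n) ≃ₗᵢ[ℝ] EuclideanSpace ℝ (Fin n)}
    {V : Submodule ℝ (EuclideanSpace ℝ (Fin n))}
    (hV : ∀ x ∈ Vᗮ, ‖g x - x‖ ≤ √(2 - 2 * s) / 2 * ‖x‖) {x : EuclideanSpace ℝ (Fin n)} (hx : x ∈ X)
    (hgx : g x ∈ X) (hne : g x ≠ x) : (1 - s) / 8 ≤ ‖V.starProjection x‖ ^ 2 := by
  have hω : 0 ≤ √(2 - 2 * s) / 2 := by positivity
  have h2 := disp_le hω hV x
  rw [hX.1 x hx, mul_one] at h2
  have h3 : 2 - 2 * s ≤ ‖g x - x‖ ^ 2 := by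
    rw [norm_sub_sq_real, hX.1 _ hgx, hX.1 x hx]
    have := hX.2 _ hgx x hx hne
    linarith
  have h4 : √(2 - 2 * s) ≤ ‖g x - x‖ := by
    rw [← Real.sqrt_sq (norm_nonneg (g x - x))]
    exact Real.sqrt_le_sqrt h3
  have h5 : √(2 - 2 * s) / 4 ≤ ‖V.starProjection x‖ := by linarith
  have h6 : (√(2 - 2 * s) / 4) ^ 2 ≤ ‖V.starProjection x‖ ^ 2 := pow_le_pow_left₀ (by positivity) h5 2
  rw [div_pow, Real.sq_sqrt (by linarith)] at h6
  linarith

open Classical in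
/-- the number of the points of `X` with the property `P` -/
noncomputable def cnt {n : ℕ} (X : Finset (EuclideanSpace ℝ (Fin n))) (P : EuclideanSpace ℝ (Fin n) → Prop) :
    ℕ := (X.filter P).card

lemma cnt_eq {n : ℕ} (X : Finset (EuclideanSpace ℝ (Fin n))) (P : EuclideanSpace ℝ (Fin n) → Prop)
    [DecidablePred P] : cnt X P = (X.filter P).card := by
  unfold cnt
  congr!

lemma cnt_mono {n : ℕ} (X : Finset (EuclideanSpace ℝ (Fin n))) {P Q : EuclideanSpace ℝ (Fin n) → Prop}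
    (h : ∀ x ∈ X, P x → Q x) : cnt X P ≤ cnt X Q := by
  classical
  rw [cnt_eq, cnt_eq]
  apply Finset.card_le_card
  intro x hx
  rw [Finset.mem_filter] at hx ⊢
  exact ⟨hx.1, h x hx.1 hx.2⟩

lemma cnt_or {n : ℕ} (X : Finset (EuclideanSpace ℝ (Fin n))) (P Q : EuclideanSpace ℝ (Fin n) → Prop) :
    cnt X (fun x => P x ∨ Q x) ≤ cnt X P + cnt X Q := by
  classical
  rw [cnt_eq, cnt_eq, cnt_eq, Finset.filter_or]
  exact Finset.card_union_le _ _

lemma cnt_not {n : ℕ} (X : Finset (EuclideanSpace ℝ (Fin n))) (P : EuclideanSpace ℝ (Fin n) → Prop) :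
    cnt X P + cnt X (fun x => ¬ P x) = X.card := by
  classical
  rw [cnt_eq, cnt_eq]
  exact Finset.card_filter_add_card_filter_not _

/-- the gap theorem -/
theorem gap {s : ℝ} (h0 : 0 < s) (h1 : s < 1) : ∃ κ : ℝ, 0 < κ ∧ ∀ ε : ℝ, 0 < ε → ε < 1 → ∃ η : ℝ, 0 < η ∧
    ∀ᶠ n : ℕ in atTop, ∀ X : Finset (EuclideanSpace ℝ (Fin n)), IsCode n s X →
      (2 : ℝ) ^ ((Rsup s - η) * n) ≤ X.card →
      (∀ g : EuclideanSpace ℝ (Fin n) ≃ₗᵢ[ℝ] EuclideanSpace ℝ (Fin n), (1 - κ) * n ≤ trc g →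
        (cnt X (fun x => g x ∈ X ∧ g x ≠ x) : ℝ) ≤ (2 : ℝ) ^ (-η * n) * X.card ∧
        ((2 : ℝ) ^ (-η * n) * X.card < cnt X (fun x => g x ∈ X) →
          (1 - ε) * n ≤ finrank ℝ (fixS {g}))) ∧
      (∀ T : Set (EuclideanSpace ℝ (Fin n) ≃ₗᵢ[ℝ] EuclideanSpace ℝ (Fin n)),
        (∀ g ∈ T, (1 - κ) * n ≤ trc g ∧ 4 * n * cnt X (fun x => g x ∉ X) ≤ X.card) →
        (1 - ε) * n ≤ finrank ℝ (fixS T) ∧ X.card ≤ 2 * cnt X (fun x => x ∈ fixS T)) ∧
      (∀ T : Set (EuclideanSpace ℝ (Fin n) ≃ₗᵢ[ℝ] EuclideanSpace ℝ (Fin n)),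
        (∀ g ∈ T, (1 - κ) * n ≤ trc g ∧ ∀ x ∈ X, g x ∈ X) →
        (1 - ε) * n ≤ finrank ℝ (fixS T) ∧
        (cnt X (fun x => x ∉ fixS T) : ℝ) ≤ (2 : ℝ) ^ (-η * n) * X.card ∧
        (X.card : ℝ) ≤ (1 + (2 : ℝ) ^ (-η * n)) * A (finrank ℝ (fixS T)) s) := by
  classical
  obtain ⟨ρ₁, κ₁, η₁, hρ₁, hκ₁, hη₁, N₁, H₁⟩ := struct h0 h1 (ε := 1 / 2) (by norm_num) (by norm_num)
    (δ := (1 - s) / 8) (by linarith)
  refine ⟨κ₁ * (1 - s) / 4, by
    have : 0 < 1 - s := by linarith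
    positivity, ?_⟩
  intro ε hε0 hε1
  obtain ⟨ρ₂, κ₂, η₂, hρ₂, hκ₂, hη₂, N₂, H₂⟩ := struct h0 h1 hε0 hε1 (δ := (1 - s) / 8) (by linarith)
  set η := min η₁ η₂ / 2 with hη
  have hη0 : 0 < η := by
    have := lt_min hη₁ hη₂
    linarith
  have e1 : 2 * η ≤ η₁ := by rw [hη]; linarith [min_le_left η₁ η₂]
  have e2 : 2 * η ≤ η₂ := by rw [hη]; linarith [min_le_right η₁ η₂]
  refine ⟨η, hη0, ?_⟩
  have hc : (1 : ℝ) < (2 : ℝ) ^ η := Real.one_lt_rpow (by norm_num) hη0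
  filter_upwards [eventually_ge_atTop N₁, eventually_ge_atTop N₂, ev_pow hc 1 4, eventually_ge_atTop 1]
    with n hn1 hn2 hn3 hn4 X hX hXc
  have hn0 : (0 : ℝ) ≤ n := Nat.cast_nonneg n
  have hnp : (1 : ℝ) ≤ n := by exact_mod_cast hn4
  have hXp : (0 : ℝ) < X.card := lt_of_lt_of_le (by positivity) hXc
  have hn5 : 4 * (n : ℝ) ≤ (2 : ℝ) ^ (η * n) := by
    rw [Real.rpow_mul (by norm_num), Real.rpow_natCast]
    rw [pow_one] at hn3
    linarith
  have hpow : ∀ η', 2 * η ≤ η' → (n : ℝ) * (2 : ℝ) ^ (-η' * n) ≤ (2 : ℝ) ^ (-η * n) / 4 := by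
    intro η' h
    have h2 : (2 : ℝ) ^ (-η' * n) ≤ (2 : ℝ) ^ (-η * n) * (2 : ℝ) ^ (-η * n) := by
      rw [← Real.rpow_add (by norm_num)]
      apply Real.rpow_le_rpow_of_exponent_le (by norm_num)
      nlinarith
    have h3 : (2 : ℝ) ^ (-η * n) * (2 : ℝ) ^ (η * n) = 1 := by
      rw [← Real.rpow_add (by norm_num)]
      simp
    have h4 : 0 < (2 : ℝ) ^ (-η * n) := by positivity
    have h5 : (n : ℝ) * (2 : ℝ) ^ (-η * n) ≤ 1 / 4 := by
      have := mul_le_mul_of_nonneg_left hn5 h4.le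
      rw [h3] at this
      linarith
    calc (n : ℝ) * (2 : ℝ) ^ (-η' * n) ≤ n * ((2 : ℝ) ^ (-η * n) * (2 : ℝ) ^ (-η * n)) :=
          mul_le_mul_of_nonneg_left h2 hn0
      _ = (2 : ℝ) ^ (-η * n) * (n * (2 : ℝ) ^ (-η * n)) := by ring
      _ ≤ (2 : ℝ) ^ (-η * n) * (1 / 4) := mul_le_mul_of_nonneg_left h5 h4.le
      _ = _ := by ring
  have hpow1 : ∀ η', 2 * η ≤ η' → (2 : ℝ) ^ (-η' * n) ≤ (2 : ℝ) ^ (-η * n) / 4 := by
    intro η' h
    refine le_trans ?_ (hpow η' h)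
    have : 0 < (2 : ℝ) ^ (-η' * n) := by positivity
    nlinarith
  have hq0 : 0 < (2 : ℝ) ^ (-η * n) := by positivity
  have hle1 : (2 : ℝ) ^ (-η * n) ≤ 1 := by
    apply Real.rpow_le_one_of_one_le_of_nonpos (by norm_num)
    nlinarith
  have hXc' : ∀ η', 2 * η ≤ η' → (2 : ℝ) ^ ((Rsup s - η') * n) ≤ X.card := by
    intro η' h
    refine le_trans ?_ hXc
    apply Real.rpow_le_rpow_of_exponent_le (by norm_num)
    apply mul_le_mul_of_nonneg_right _ hn0
    linarith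
  obtain ⟨-, -, H3, -, -⟩ := H₁ n hn1 X hX (hXc' _ e1)
  obtain ⟨H4, -, -, -, -⟩ := H₂ n hn2 X hX (hXc' _ e2)
  -- the moved points of one isometry
  have hmov : ∀ g : EuclideanSpace ℝ (Fin n) ≃ₗᵢ[ℝ] EuclideanSpace ℝ (Fin n),
      (1 - κ₁ * (1 - s) / 4) * n ≤ trc g →
      (cnt X (fun x => g x ∈ X ∧ g x ≠ x) : ℝ) ≤ (2 : ℝ) ^ (-η₁ * n) * X.card := by
    intro g h2
    have h3 : Sm g (2 * (n - trc g)) := sm_trace g
    have h4 : Sm g (κ₁ * (1 - s) / 2 * n) := h3.mono (by linarith)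
    have hω : 0 < √(2 - 2 * s) / 2 := by
      have : 0 < √(2 - 2 * s) := Real.sqrt_pos.2 (by linarith)
      positivity
    obtain ⟨V, hV1, hV2⟩ := exists_big h4 hω
    rw [div_pow, Real.sq_sqrt (by linarith)] at hV1
    have h5 : (finrank ℝ V : ℝ) ≤ κ₁ * n := by
      have h6 : 0 < (1 - s) / 2 := by linarith
      have h7 : (finrank ℝ V : ℝ) * ((1 - s) / 2) ≤ κ₁ * n * ((1 - s) / 2) := by linarith
      exact le_of_mul_le_mul_right h7 h6
    have h6 := H3 V h5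
    rw [← cnt_eq X (fun x => (1 - s) / 8 ≤ ‖V.starProjection x‖ ^ 2)] at h6
    refine le_trans ?_ h6
    refine Nat.cast_le.2 (cnt_mono X fun x hx (h : g x ∈ X ∧ g x ≠ x) => ?_)
    exact energy_of_moved h1 hX hV2 hx h.1 h.2
  -- few points in a subspace of large codimension
  have hsub : ∀ F : Submodule ℝ (EuclideanSpace ℝ (Fin n)), (finrank ℝ F : ℝ) < (1 - ε) * n →
      (cnt X (fun x => x ∈ F) : ℝ) ≤ (2 : ℝ) ^ (-η₂ * n) * X.card := by
    intro F hF
    have h2 : ε * n ≤ finrank ℝ (Fᗮ : Submodule ℝ (EuclideanSpace ℝ (Fin n))) := by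
      have h3 := F.finrank_add_finrank_orthogonal
      rw [finrank_euclideanSpace_fin] at h3
      have h4 : (finrank ℝ F : ℝ) +
          finrank ℝ (Fᗮ : Submodule ℝ (EuclideanSpace ℝ (Fin n))) = n := by exact_mod_cast h3
      linarith
    have h3 := H4 _ h2
    rw [← cnt_eq X (fun x => ‖Fᗮ.starProjection x‖ ^ 2 ≤ ρ₂)] at h3
    refine le_trans ?_ h3
    refine Nat.cast_le.2 (cnt_mono X fun x hx h => ?_)
    have h5 : Fᗮ.starProjection x = 0 := by
      rw [Submodule.starProjection_apply_eq_zero_iff, Submodule.orthogonal_orthogonal]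
      exact h
    rw [h5, norm_zero, zero_pow two_ne_zero]
    exact hρ₂.le
  -- the points outside of the common fixed space
  have hout : ∀ T : Set (EuclideanSpace ℝ (Fin n) ≃ₗᵢ[ℝ] EuclideanSpace ℝ (Fin n)), ∀ D : ℝ, 0 ≤ D →
      (∀ g ∈ T, (1 - κ₁ * (1 - s) / 4) * n ≤ trc g ∧ (cnt X (fun x => g x ∉ X) : ℝ) ≤ D) →
      (cnt X (fun x => x ∉ fixS T) : ℝ) ≤ n * D + (2 : ℝ) ^ (-η * n) / 4 * X.card := by
    intro T D hD0 hD
    obtain ⟨T', hT1, hT2, hT3⟩ := exists_few_fix T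
    rw [finrank_euclideanSpace_fin] at hT3
    have hT3' : (T'.card : ℝ) ≤ n := by exact_mod_cast hT3
    have h2 : (X.filter fun x => x ∉ fixS T) ⊆ T'.biUnion fun g => X.filter fun x => g x ≠ x := by
      intro x hx
      rw [Finset.mem_filter, ← hT2] at hx
      rw [Finset.mem_biUnion]
      by_contra hcon
      push Not at hcon
      apply hx.2
      intro g hg
      by_contra hne
      exact hcon g hg (Finset.mem_filter.2 ⟨hx.1, hne⟩)
    have h3 : (cnt X (fun x => x ∉ fixS T) : ℝ) ≤ ∑ g ∈ T', (cnt X (fun x => g x ≠ x) : ℝ) := by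
      rw [cnt_eq]
      simp only [cnt_eq]
      exact_mod_cast (Finset.card_le_card h2).trans Finset.card_biUnion_le
    have h4 : ∑ g ∈ T', (cnt X (fun x => g x ≠ x) : ℝ) ≤
        ∑ _g ∈ T', (D + (2 : ℝ) ^ (-η₁ * n) * X.card) := by
      refine Finset.sum_le_sum fun g hg => ?_
      have h5 : (cnt X (fun x => g x ≠ x) : ℝ) ≤ cnt X (fun x => g x ∉ X) +
          cnt X (fun x => g x ∈ X ∧ g x ≠ x) := by
        have h6 := (cnt_mono X fun x _ (h : g x ≠ x) => (show g x ∉ X ∨ (g x ∈ X ∧ g x ≠ x) by tauto)).trans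
          (cnt_or X (fun x => g x ∉ X) (fun x => g x ∈ X ∧ g x ≠ x))
        exact_mod_cast h6
      linarith [(hD g (hT1 hg)).2, hmov g (hD g (hT1 hg)).1]
    rw [Finset.sum_const, nsmul_eq_mul] at h4
    have h5 : (T'.card : ℝ) * (D + (2 : ℝ) ^ (-η₁ * n) * X.card) ≤
        n * (D + (2 : ℝ) ^ (-η₁ * n) * X.card) := mul_le_mul_of_nonneg_right hT3' (by positivity)
    have h6 := mul_le_mul_of_nonneg_right (hpow _ e1) hXp.le
    linarith
  have hsplit : ∀ P : EuclideanSpace ℝ (Fin n) → Prop, (cnt X P : ℝ) + cnt X (fun x => ¬ P x) = X.card := by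
    intro P
    exact_mod_cast cnt_not X P
  -- families of approximate symmetries
  have hfam : ∀ T : Set (EuclideanSpace ℝ (Fin n) ≃ₗᵢ[ℝ] EuclideanSpace ℝ (Fin n)),
        (∀ g ∈ T, (1 - κ₁ * (1 - s) / 4) * n ≤ trc g ∧ 4 * n * cnt X (fun x => g x ∉ X) ≤ X.card) →
        (1 - ε) * n ≤ finrank ℝ (fixS T) ∧ X.card ≤ 2 * cnt X (fun x => x ∈ fixS T) := by
    intro T hT
    have hhalf : (cnt X (fun x => x ∉ fixS T) : ℝ) ≤ X.card / 2 := by
      have h2 := hout T (X.card / (4 * n)) (by positivity) fun g hg => ⟨(hT g hg).1, by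
        rw [le_div_iff₀ (by positivity)]
        have := (hT g hg).2
        have h3 : (4 * n * cnt X (fun x => g x ∉ X) : ℝ) ≤ X.card := by exact_mod_cast this
        linarith⟩
      have h3 : (n : ℝ) * (X.card / (4 * n)) = X.card / 4 := by field_simp
      have h4 : (2 : ℝ) ^ (-η * n) / 4 * X.card ≤ 1 / 4 * X.card :=
        mul_le_mul_of_nonneg_right (by linarith) hXp.le
      linarith
    have h5 := hsplit fun x => x ∈ fixS T
    refine ⟨?_, ?_⟩
    · by_contra hcon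
      push Not at hcon
      have h6 := hsub _ hcon
      have h7 := mul_le_mul_of_nonneg_right (hpow1 _ e2) hXp.le
      have h8 : (2 : ℝ) ^ (-η * n) / 4 * X.card ≤ 1 / 4 * X.card :=
        mul_le_mul_of_nonneg_right (by linarith) hXp.le
      linarith
    · have : (X.card : ℝ) ≤ 2 * cnt X (fun x => x ∈ fixS T) := by linarith
      exact_mod_cast this
  refine ⟨fun g hg => ⟨(hmov g hg).trans (mul_le_mul_of_nonneg_right
    ((hpow1 _ e1).trans (by linarith)) hXp.le), fun h => ?_⟩, hfam, fun T hT => ?_⟩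
  · by_contra hcon
    push Not at hcon
    have h2 := hsub _ hcon
    have h3 := hmov g hg
    have h4 : (cnt X (fun x => g x ∈ X) : ℝ) ≤ cnt X (fun x => x ∈ fixS {g}) +
        cnt X (fun x => g x ∈ X ∧ g x ≠ x) := by
      have h6 := (cnt_mono X fun x _ (h : g x ∈ X) => (show x ∈ fixS {g} ∨ (g x ∈ X ∧ g x ≠ x) by
        by_cases hx : g x = x
        · left
          intro g' hg'
          rw [Set.mem_singleton_iff.1 hg']
          exact hx
        · exact Or.inr ⟨h, hx⟩)).trans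
        (cnt_or X (fun x => x ∈ fixS {g}) (fun x => g x ∈ X ∧ g x ≠ x))
      exact_mod_cast h6
    have h5 := mul_le_mul_of_nonneg_right (hpow1 _ e1) hXp.le
    have h6 := mul_le_mul_of_nonneg_right (hpow1 _ e2) hXp.le
    have h7 : (2 : ℝ) ^ (-η * n) / 4 * X.card + (2 : ℝ) ^ (-η * n) / 4 * X.card ≤
        (2 : ℝ) ^ (-η * n) * X.card := by
      have : 0 ≤ (2 : ℝ) ^ (-η * n) * X.card := by positivity
      linarith
    linarith
  · have hz : ∀ g ∈ T, cnt X (fun x => g x ∉ X) = 0 := by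
      intro g hg
      rw [cnt_eq, Finset.card_eq_zero, Finset.filter_eq_empty_iff]
      intro x hx
      exact not_not.2 ((hT g hg).2 x hx)
    have h2 := hfam T fun g hg => ⟨(hT g hg).1, by rw [hz g hg, mul_zero]; exact Nat.zero_le _⟩
    have h3 := hout T 0 le_rfl fun g hg => ⟨(hT g hg).1, by rw [hz g hg, Nat.cast_zero]⟩
    rw [mul_zero, zero_add] at h3
    refine ⟨h2.1, h3.trans (mul_le_mul_of_nonneg_right (by linarith) hXp.le), ?_⟩
    have h5 := hsplit fun x => x ∈ fixS T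
    have h6 : (cnt X (fun x => x ∈ fixS T) : ℝ) ≤ A (finrank ℝ (fixS T)) s := by
      rw [cnt_eq]
      have h7 : IsCode n s (X.filter fun x => x ∈ fixS T) :=
        ⟨fun x hx => hX.1 x (Finset.mem_filter.1 hx).1, fun x hx y hy hne =>
          hX.2 x (Finset.mem_filter.1 hx).1 y (Finset.mem_filter.1 hy).1 hne⟩
      exact_mod_cast card_sub h0.le h1 h7 (fixS T) fun x hx => (Finset.mem_filter.1 hx).2
    set q := (2 : ℝ) ^ (-η * n)
    obtain ⟨c, hcdef⟩ : ∃ c : ℝ, c = X.card := ⟨_, rfl⟩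
    rw [← hcdef] at h3 h5 hXp ⊢
    have h8 : (1 - q / 4) * c ≤ A (finrank ℝ (fixS T)) s := by linarith
    have h9 : c ≤ (1 + q) * ((1 - q / 4) * c) := by
      have h10 : 0 ≤ q * (3 - q) / 4 * c := by
        have : 0 ≤ 3 - q := by linarith
        positivity
      nlinarith
    refine h9.trans (mul_le_mul_of_nonneg_left h8 (by linarith))

end Pool.Agent.H58.SG
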