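import Pool.Agent.H58.SG.Gap

/-!
# Symmetry groups of codes of nearly maximal size
-/

set_option autoImplicit false
set_option linter.unusedSectionVars false

open Module Filter
open scoped InnerProductSpace

namespace Pool.Agent.H58.SG

open Pool.Agent.H58.ST Pool.Agent.E8helper70.Sph

variable {n : ℕ}

/-- the entries of an isometry, as a unit vector of `ℝ ^ (n × n)` -/
noncomputable def emb (g : EuclideanSpace ℝ (Fin n) ≃ₗᵢ[ℝ] EuclideanSpace ℝ (Fin n)) :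
    EuclideanSpace ℝ (Fin n × Fin n) :=
  WithLp.toLp 2 fun p => (√(n : ℝ))⁻¹ * g (EuclideanSpace.basisFun (Fin n) ℝ p.1) p.2

lemma norm_emb_sub (g h : EuclideanSpace ℝ (Fin n) ≃ₗᵢ[ℝ] EuclideanSpace ℝ (Fin n)) :
    ‖emb g - emb h‖ ^ 2 = (n : ℝ)⁻¹ * ∑ i, ‖g (EuclideanSpace.basisFun (Fin n) ℝ i) -
      h (EuclideanSpace.basisFun (Fin n) ℝ i)‖ ^ 2 := by
  rw [EuclideanSpace.norm_sq_eq, Fintype.sum_prod_type, Finset.mul_sum]
  refine Finset.sum_congr rfl fun i _ => ?_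
  rw [EuclideanSpace.norm_sq_eq, Finset.mul_sum]
  refine Finset.sum_congr rfl fun j _ => ?_
  have h1 : (emb g - emb h) (i, j) = (√(n : ℝ))⁻¹ * ((g (EuclideanSpace.basisFun (Fin n) ℝ i) -
      h (EuclideanSpace.basisFun (Fin n) ℝ i)) j) := by
    rw [PiLp.sub_apply, PiLp.sub_apply]
    simp only [emb]
    ring
  rw [h1, norm_mul, mul_pow, norm_inv, Real.norm_of_nonneg (Real.sqrt_nonneg _), inv_pow,
    Real.sq_sqrt (Nat.cast_nonneg n)]

lemma norm_emb (g : EuclideanSpace ℝ (Fin n) ≃ₗᵢ[ℝ] EuclideanSpace ℝ (Fin n)) : ‖emb g‖ ≤ 1 := by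
  have h1 : ‖emb g‖ ^ 2 ≤ 1 := by
    rw [EuclideanSpace.norm_sq_eq, Fintype.sum_prod_type]
    have h2 : ∀ i : Fin n, ∑ j, ‖(emb g) (i, j)‖ ^ 2 = (n : ℝ)⁻¹ := by
      intro i
      have h3 : ∀ j, ‖(emb g) (i, j)‖ ^ 2 = (n : ℝ)⁻¹ * ‖g (EuclideanSpace.basisFun (Fin n) ℝ i) j‖ ^ 2 := by
        intro j
        simp only [emb]
        rw [norm_mul, mul_pow, norm_inv, Real.norm_of_nonneg (Real.sqrt_nonneg _), inv_pow,
          Real.sq_sqrt (Nat.cast_nonneg n)]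
      rw [Finset.sum_congr rfl fun j _ => h3 j, ← Finset.mul_sum, ← EuclideanSpace.norm_sq_eq,
        LinearIsometryEquiv.norm_map, (EuclideanSpace.basisFun (Fin n) ℝ).norm_eq_one]
      ring
    rw [Finset.sum_congr rfl fun i _ => h2 i, Finset.sum_const, Finset.card_univ, Fintype.card_fin,
      nsmul_eq_mul]
    rcases Nat.eq_zero_or_pos n with rfl | hn
    · simp
    · have : (n : ℝ) ≠ 0 := by positivity
      rw [mul_inv_cancel₀ this]
  exact (sq_le_one_iff₀ (norm_nonneg _)).1 h1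

lemma trc_eq (g : EuclideanSpace ℝ (Fin n) ≃ₗᵢ[ℝ] EuclideanSpace ℝ (Fin n)) :
    trc g = ∑ i, ⟪EuclideanSpace.basisFun (Fin n) ℝ i, g (EuclideanSpace.basisFun (Fin n) ℝ i)⟫_ℝ := by
  unfold trc
  rw [LinearMap.trace_eq_sum_inner _ (EuclideanSpace.basisFun (Fin n) ℝ)]
  rfl

/-- the distance and the trace -/
lemma norm_emb_sub_eq (hn : 0 < n) (g h : EuclideanSpace ℝ (Fin n) ≃ₗᵢ[ℝ] EuclideanSpace ℝ (Fin n)) :
    ‖emb g - emb h‖ ^ 2 = 2 - 2 * trc (g⁻¹ * h) / n := by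
  have hn' : (n : ℝ) ≠ 0 := by positivity
  rw [norm_emb_sub, trc_eq]
  have h1 : ∀ i, ‖g (EuclideanSpace.basisFun (Fin n) ℝ i) - h (EuclideanSpace.basisFun (Fin n) ℝ i)‖ ^ 2 =
      2 - 2 * ⟪EuclideanSpace.basisFun (Fin n) ℝ i, (g⁻¹ * h) (EuclideanSpace.basisFun (Fin n) ℝ i)⟫_ℝ := by
    intro i
    rw [norm_sub_sq_real, LinearIsometryEquiv.norm_map, LinearIsometryEquiv.norm_map,
      (EuclideanSpace.basisFun (Fin n) ℝ).norm_eq_one]
    have h2 : ⟪g (EuclideanSpace.basisFun (Fin n) ℝ i), h (EuclideanSpace.basisFun (Fin n) ℝ i)⟫_ℝ =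
        ⟪EuclideanSpace.basisFun (Fin n) ℝ i, (g⁻¹ * h) (EuclideanSpace.basisFun (Fin n) ℝ i)⟫_ℝ := by
      rw [← LinearIsometryEquiv.inner_map_map g (EuclideanSpace.basisFun (Fin n) ℝ i)
        ((g⁻¹ * h) (EuclideanSpace.basisFun (Fin n) ℝ i))]
      congr 1
      exact (g.apply_symm_apply _).symm
    rw [h2]
    ring
  rw [Finset.sum_congr rfl fun i _ => h1 i, Finset.sum_sub_distrib, Finset.sum_const, Finset.card_univ,
    Fintype.card_fin, nsmul_eq_mul, ← Finset.mul_sum]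
  field_simp

lemma trc_conj (g h : EuclideanSpace ℝ (Fin n) ≃ₗᵢ[ℝ] EuclideanSpace ℝ (Fin n)) :
    trc (g⁻¹ * h * g) = trc h := by
  unfold trc
  have h1 : (((g⁻¹ * h * g : EuclideanSpace ℝ (Fin n) ≃ₗᵢ[ℝ] EuclideanSpace ℝ (Fin n)).toLinearEquiv :
      EuclideanSpace ℝ (Fin n) →ₗ[ℝ] EuclideanSpace ℝ (Fin n))) =
      ((g⁻¹).toLinearEquiv : EuclideanSpace ℝ (Fin n) →ₗ[ℝ] EuclideanSpace ℝ (Fin n)) ∘ₗ
        ((h.toLinearEquiv : EuclideanSpace ℝ (Fin n) →ₗ[ℝ] EuclideanSpace ℝ (Fin n)) ∘ₗ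
          (g.toLinearEquiv : EuclideanSpace ℝ (Fin n) →ₗ[ℝ] EuclideanSpace ℝ (Fin n))) := rfl
  rw [h1, LinearMap.trace_comp_comm']
  congr 1
  ext x i
  change (h (g (g⁻¹ x))) i = _
  have h2 : g (g⁻¹ x) = x := g.apply_symm_apply x
  rw [h2]
  rfl

/-- isometries which are pairwise far from each other -/
lemma card_far (hn : 0 < n) {κ : ℝ} (hκ : 0 < κ)
    (S : Finset (EuclideanSpace ℝ (Fin n) ≃ₗᵢ[ℝ] EuclideanSpace ℝ (Fin n)))
    (hS : ∀ g ∈ S, ∀ h ∈ S, g ≠ h → trc (g⁻¹ * h) < (1 - κ) * n) :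
    (S.card : ℝ) ≤ (2 + 2 / √(2 * κ)) ^ n ^ 2 := by
  classical
  have hn' : (0 : ℝ) < n := by exact_mod_cast hn
  have hd : ∀ g ∈ S, ∀ h ∈ S, g ≠ h → √(2 * κ) ≤ ‖emb g - emb h‖ := by
    intro g hg h hh hne
    rw [← Real.sqrt_sq (norm_nonneg (emb g - emb h))]
    apply Real.sqrt_le_sqrt
    rw [norm_emb_sub_eq hn]
    have h1 := hS g hg h hh hne
    have h2 : 2 * trc (g⁻¹ * h) / n ≤ 2 * (1 - κ) := by
      rw [div_le_iff₀ hn']
      linarith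
    linarith
  have hpos : 0 < √(2 * κ) := Real.sqrt_pos.2 (by positivity)
  have hinj : Set.InjOn emb (S : Set (EuclideanSpace ℝ (Fin n) ≃ₗᵢ[ℝ] EuclideanSpace ℝ (Fin n))) := by
    intro g hg h hh he
    by_contra hne
    have h1 := hd g hg h hh hne
    rw [he, sub_self, norm_zero] at h1
    linarith
  have h1 := sep_card (P := S.image emb) (fun p hp => by
    obtain ⟨g, -, rfl⟩ := Finset.mem_image.1 hp
    exact norm_emb g) hpos (fun p hp q hq hpq => by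
      obtain ⟨g, hg, rfl⟩ := Finset.mem_image.1 hp
      obtain ⟨h, hh, rfl⟩ := Finset.mem_image.1 hq
      exact hd g hg h hh fun he => hpq (by rw [he]))
  rw [Finset.card_image_of_injOn hinj] at h1
  have h2 : finrank ℝ (EuclideanSpace ℝ (Fin n × Fin n)) = n ^ 2 := by
    rw [finrank_euclideanSpace, Fintype.card_prod, Fintype.card_fin, sq]
  rwa [h2] at h1

/-- the inverse of a symmetry is a symmetry -/
lemma inv_maps {X : Finset (EuclideanSpace ℝ (Fin n))}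
    {g : EuclideanSpace ℝ (Fin n) ≃ₗᵢ[ℝ] EuclideanSpace ℝ (Fin n)} (hg : ∀ x ∈ X, g x ∈ X) :
    ∀ x ∈ X, g⁻¹ x ∈ X := by
  classical
  intro x hx
  have h1 : X.image g = X := by
    apply Finset.eq_of_subset_of_card_le
    · intro y hy
      obtain ⟨z, hz, rfl⟩ := Finset.mem_image.1 hy
      exact hg z hz
    · rw [Finset.card_image_of_injective _ g.injective]
  rw [← h1] at hx
  obtain ⟨z, hz, rfl⟩ := Finset.mem_image.1 hx
  have h2 : g⁻¹ (g z) = z := g.symm_apply_apply z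
  rw [h2]
  exact hz

/-- the symmetries of `X` -/
def symG (X : Finset (EuclideanSpace ℝ (Fin n))) :
    Set (EuclideanSpace ℝ (Fin n) ≃ₗᵢ[ℝ] EuclideanSpace ℝ (Fin n)) := {g | ∀ x ∈ X, g x ∈ X}

/-- the symmetries of trace at least `(1 - κ) n` -/
def smallG (κ : ℝ) (X : Finset (EuclideanSpace ℝ (Fin n))) :
    Set (EuclideanSpace ℝ (Fin n) ≃ₗᵢ[ℝ] EuclideanSpace ℝ (Fin n)) :=
  {g | (∀ x ∈ X, g x ∈ X) ∧ (1 - κ) * n ≤ trc g}

/-- the fixed space of the small symmetries is invariant -/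
lemma fix_invariant {κ : ℝ} {X : Finset (EuclideanSpace ℝ (Fin n))}
    {g : EuclideanSpace ℝ (Fin n) ≃ₗᵢ[ℝ] EuclideanSpace ℝ (Fin n)} (hg : g ∈ symG X)
    {x : EuclideanSpace ℝ (Fin n)} (hx : x ∈ fixS (smallG κ X)) : g x ∈ fixS (smallG κ X) := by
  intro h hh
  have h1 : g⁻¹ * h * g ∈ smallG κ X := by
    refine ⟨fun y hy => ?_, ?_⟩
    · change g⁻¹ (h (g y)) ∈ X
      exact inv_maps hg _ (hh.1 _ (hg y hy))
    · rw [trc_conj]
      exact hh.2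
  have h2 := hx _ h1
  change g⁻¹ (h (g x)) = x at h2
  have h3 : g (g⁻¹ (h (g x))) = h (g x) := g.apply_symm_apply _
  rw [h2] at h3
  exact h3.symm

/-- transitive groups of symmetries -/
lemma fixed_of_transitive (hn : 0 < n) {κ η : ℝ} (hη : 0 < η) {X : Finset (EuclideanSpace ℝ (Fin n))}
    (hX : (0 : ℝ) < X.card)
    (h : (cnt X (fun x => x ∉ fixS (smallG κ X)) : ℝ) ≤ (2 : ℝ) ^ (-η * n) * X.card)
    (htr : ∀ x ∈ X, ∀ y ∈ X, ∃ g ∈ symG X, g x = y) : ∀ g ∈ smallG κ X, ∀ x ∈ X, g x = x := by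
  classical
  have hn' : (0 : ℝ) < n := by exact_mod_cast hn
  have hq : (2 : ℝ) ^ (-η * n) < 1 := by
    apply Real.rpow_lt_one_of_one_lt_of_neg (by norm_num)
    have : 0 < η * n := by positivity
    linarith
  obtain ⟨x₀, hx₀, hx₀F⟩ : ∃ x ∈ X, x ∈ fixS (smallG κ X) := by
    by_contra hcon
    push Not at hcon
    have h1 : cnt X (fun x => x ∉ fixS (smallG κ X)) = X.card := by
      rw [cnt_eq, Finset.filter_true_of_mem hcon]
    rw [h1] at h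
    nlinarith
  intro g hg x hx
  obtain ⟨t, ht, rfl⟩ := htr x₀ hx₀ x hx
  exact fix_invariant ht hx₀F g hg

/-- symmetries which differ on the fixed space -/
lemma card_group (hn : 0 < n) {κ : ℝ} (hκ : 0 < κ) {X : Finset (EuclideanSpace ℝ (Fin n))}
    (S : Finset (EuclideanSpace ℝ (Fin n) ≃ₗᵢ[ℝ] EuclideanSpace ℝ (Fin n)))
    (hS : ∀ g ∈ S, g ∈ symG X) (hS' : ∀ g ∈ S, ∀ h ∈ S, g ≠ h → ∃ x ∈ fixS (smallG κ X), g x ≠ h x) :
    (S.card : ℝ) ≤ (2 + 2 / √(2 * κ)) ^ n ^ 2 := by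
  refine card_far hn hκ S fun g hg h hh hne => ?_
  by_contra hcon
  push Not at hcon
  obtain ⟨x, hx, hxne⟩ := hS' g hg h hh hne
  have h1 : g⁻¹ * h ∈ smallG κ X := by
    refine ⟨fun y hy => ?_, hcon⟩
    change g⁻¹ (h y) ∈ X
    exact inv_maps (hS g hg) _ (hS h hh y hy)
  have h2 := hx _ h1
  change g⁻¹ (h x) = x at h2
  apply hxne
  have h3 : g (g⁻¹ (h x)) = h x := g.apply_symm_apply _
  rw [h2] at h3
  exact h3

end Pool.Agent.H58.SG
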