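import Pool.Agent.H58.SK.Onb
import Pool.Graph.R_seed8.H161R2.KissFinal
import Pool.Graph.R_seed8.H161R2.KissWyner

/-!
# Codes with an irreducible finite group of isometries
-/

set_option autoImplicit false

open scoped InnerProductSpace
open Module Filter Pool.Agent.H818R2

namespace Pool.Agent.H58.SG.Irred

/-- Euclidean space -/
abbrev E (n : ℕ) := EuclideanSpace ℝ (Fin n)

/-- the linear isometries of Euclidean space -/
abbrev Isom (n : ℕ) := EuclideanSpace ℝ (Fin n) ≃ₗᵢ[ℝ] EuclideanSpace ℝ (Fin n)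

/-- the trace of the isometry `g` -/
noncomputable def tr {n : ℕ} (g : Isom n) : ℝ := LinearMap.trace ℝ (E n) (g.toLinearEquiv : E n →ₗ[ℝ] E n)

/-- the group `G` has no invariant subspaces -/
def Irreducible {n : ℕ} (G : Subgroup (Isom n)) : Prop :=
  ∀ W : Submodule ℝ (E n), (∀ h ∈ G, ∀ x ∈ W, h x ∈ W) → W = ⊥ ∨ W = ⊤

open Pool.Agent.H58.SK Pool.Agent.H161R2.KissSym

lemma top_ne_bot {n : ℕ} {g : Isom n} (hg1 : g ≠ 1) : (⊤ : Submodule ℝ (E n)) ≠ ⊥ := by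
  intro h
  apply hg1
  ext1 x
  have hx : x ∈ (⊤ : Submodule ℝ (E n)) := trivial
  rw [h, Submodule.mem_bot] at hx
  rw [hx, map_zero, map_zero]

lemma irr_iff {n : ℕ} {G : Subgroup (Isom n)} (h : Irreducible G) {g : Isom n} (hg1 : g ≠ 1) :
    Irr G.subtype ⊤ :=
  ⟨top_ne_bot hg1, fun _ _ _ => trivial, fun W _ hI => h W fun g hg x hx => hI ⟨g, hg⟩ x hx⟩

lemma irr_general {n : ℕ} {θ : ℝ} (hs0 : 0 < Real.sin (θ / 2)) {G : Subgroup (Isom n)}
    [Finite G] (hI : Irreducible G) {g : Isom n} (hg : g ∈ G) (hg1 : g ≠ 1) {c : ℝ} (hc0 : 0 ≤ c)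
    (hc : (n - tr g) / (2 * Real.sin (θ / 2) ^ 2) ≤ c) {X : Finset (E n)}
    (hX : IsSphCode n θ X) (hGX : ∀ h ∈ G, ∀ x ∈ X, h x ∈ X) {M K y : ℝ} (hK : 1 ≤ K) (hy : 0 < y)
    (hy1 : y ≤ 1) (hM : 0 ≤ M) (hMK : ∀ i : ℕ, i ≤ n → (sphMax i θ : ℝ) ≤ M * K ^ i) :
    (X.card : ℝ) * (y / K) ^ c ≤ M * (1 + y) ^ n := by
  have := Fintype.ofFinite G
  have htot : tot (fun _ : Unit => (⊤ : Submodule ℝ (E n))) = ⊤ := by
    rw [tot]
    exact iSup_const
  have hn : finrank ℝ ↥(tot (fun _ : Unit => (⊤ : Submodule ℝ (E n)))) = n := by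
    rw [htot, finrank_top, finrank_euclideanSpace_fin]
  have h := Pool.Agent.H58.SK.general (ρ := G.subtype) (θ := θ)
    (U := fun _ : Unit => (⊤ : Submodule ℝ (E n))) (M := M) (K := K) (y := y) (c := c)
    hs0 (fun i j hij => absurd (Subsingleton.elim i j) hij) (fun _ => irr_iff hI hg1)
    (fun _ => ⟨g, hg⟩)
    (by
      intro _ x hx
      rw [htot, Submodule.top_orthogonal_eq_bot, Submodule.mem_bot] at hx
      rw [hx, map_zero])
    (by
      intro _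
      by_contra hcon
      push Not at hcon
      apply hg1
      ext1 x
      exact hcon x trivial)
    hX (fun γ x hx => hGX _ γ.2 x hx) hc0
    (by
      intro _
      rw [Finset.univ_unique, Finset.sum_singleton]
      have h1 : hs (G.subtype ⟨g, hg⟩) ⊤ = 2 * (n - tr g) := hs_top g
      rw [h1]
      have h2 : 2 * (n - tr g) ≤ 4 * Real.sin (θ / 2) ^ 2 * c := by
        rw [div_le_iff₀ (by positivity)] at hc
        linarith
      rw [mul_comm]
      exact mul_le_mul_of_nonneg_right h2 (Nat.cast_nonneg _))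
    hK hy hy1 hM
    (by
      intro i hi
      rw [hn] at hi ⊢
      rw [Nat.sub_self, zero_add]
      exact hMK i hi)
  rw [hn] at h
  exact h

lemma trace_lt {n : ℕ} {g : Isom n} (hg1 : g ≠ 1) : 0 < n - tr g := by
  have h1 : hs g ⊤ = 2 * (n - tr g) := hs_top g
  have h2 : 0 < hs g ⊤ := by
    refine lt_of_le_of_ne (hs_nonneg g ⊤) fun h => hg1 ?_
    have h3 : ∀ i, g (stdOrthonormalBasis ℝ (⊤ : Submodule ℝ (E n)) i : E n) =
        (stdOrthonormalBasis ℝ (⊤ : Submodule ℝ (E n)) i : E n) := by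
      intro i
      have h4 := (Finset.sum_eq_zero_iff_of_nonneg (fun i _ => by positivity)).1 h.symm i
        (Finset.mem_univ i)
      rw [sq_eq_zero_iff, norm_eq_zero, sub_eq_zero] at h4
      exact h4
    ext1 x
    have h5 := (stdOrthonormalBasis ℝ (⊤ : Submodule ℝ (E n))).sum_repr ⟨x, trivial⟩
    have h6 := congrArg (fun z : (⊤ : Submodule ℝ (E n)) => (z : E n)) h5
    simp only [Submodule.coe_sum, Submodule.coe_smul] at h6
    rw [← h6, map_sum, map_sum]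
    refine Finset.sum_congr rfl fun i _ => ?_
    rw [map_smul, map_smul, h3 i]
    rfl
  linarith

/-- the bound for irreducible finite groups -/
theorem irreducible {n : ℕ} {θ : ℝ} (hs0 : 0 < Real.sin (θ / 2)) {G : Subgroup (Isom n)} (hG : Finite G)
    (hI : Irreducible G) {g : Isom n} (hg : g ∈ G) (hg1 : g ≠ 1) {c : ℝ}
    (hc : (n - tr g) / (2 * Real.sin (θ / 2) ^ 2) ≤ c) (hcn : c ≤ n) {X : Finset (E n)}
    (hX : IsSphCode n θ X) (hGX : ∀ h ∈ G, ∀ x ∈ X, h x ∈ X) :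
    (X.card : ℝ) ≤ (Real.exp 1 * Pool.Agent.H58.SK.cst θ * n / c) ^ c := by
  have hc0 : 0 < c := lt_of_lt_of_le (div_pos (trace_lt hg1) (by positivity)) hc
  have h := numeric (a := X.card) (M := 1) (K := Pool.Agent.H58.SK.cst θ) (m := n) hc0 hcn
    (one_le_cst hs0) zero_le_one fun y hy hy1 =>
      irr_general hs0 hI hg hg1 hc0.le hc hX hGX (one_le_cst hs0) hy hy1 zero_le_one
        fun i _ => by rw [one_mul]; exact sphMax_le_cst hs0 i
  rw [one_mul] at h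
  exact h

/-- an upper bound for all kissing numbers -/
lemma kissing_all : ∃ M : ℝ, 1 ≤ M ∧ ∀ i : ℕ,
    (sphMax i (Real.pi / 3) : ℝ) ≤ M * ((2 : ℝ) ^ (397 / 1000 : ℝ)) ^ i := by
  obtain ⟨N, hN⟩ := eventually_atTop.1 kissing_upper
  refine ⟨1 + ∑ i ∈ Finset.range N, (sphMax i (Real.pi / 3) : ℝ), ?_, fun i => ?_⟩
  · have : 0 ≤ ∑ i ∈ Finset.range N, (sphMax i (Real.pi / 3) : ℝ) :=
      Finset.sum_nonneg fun _ _ => Nat.cast_nonneg _
    linarith
  · have h0 : 0 ≤ ∑ i ∈ Finset.range N, (sphMax i (Real.pi / 3) : ℝ) :=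
      Finset.sum_nonneg fun _ _ => Nat.cast_nonneg _
    have h1 : (1 : ℝ) ≤ ((2 : ℝ) ^ (397 / 1000 : ℝ)) ^ i :=
      one_le_pow₀ (Real.one_le_rpow (by norm_num) (by norm_num))
    rcases lt_or_ge i N with h | h
    · have h2 : (sphMax i (Real.pi / 3) : ℝ) ≤
          ∑ i ∈ Finset.range N, (sphMax i (Real.pi / 3) : ℝ) :=
        Finset.single_le_sum (f := fun i => (sphMax i (Real.pi / 3) : ℝ))
          (fun _ _ => Nat.cast_nonneg _) (Finset.mem_range.2 h)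
      nlinarith
    · have h2 := hN i h
      have h3 : (2 : ℝ) ^ ((397 / 1000 : ℝ) * i) = ((2 : ℝ) ^ (397 / 1000 : ℝ)) ^ i := by
        rw [Real.rpow_mul (by norm_num), Real.rpow_natCast]
      rw [h3] at h2
      change (sphMax i (Real.pi / 3) : ℝ) ≤ _ at h2
      nlinarith

theorem kissing_bound : ∀ᶠ n : ℕ in atTop, ∀ G : Subgroup (Isom n), Finite G → Irreducible G →
    ∀ g ∈ G, g ≠ 1 → (1 - 1 / 70 : ℝ) * n ≤ tr g → ∀ X : Finset (E n), IsSphCode n (Real.pi / 3) X →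
    (∀ h ∈ G, ∀ x ∈ X, h x ∈ X) → (X.card : ℝ) ≤ (2 : ℝ) ^ (-(n : ℝ) / 200) * kissing n := by
  obtain ⟨M, hM1, hM⟩ := kissing_all
  have hev : ∀ᶠ n : ℕ in atTop, M ≤ (2 : ℝ) ^ ((3 / 1000 : ℝ) * n) := by
    have h1 : Tendsto (fun n : ℕ => ((2 : ℝ) ^ (3 / 1000 : ℝ)) ^ n) atTop atTop :=
      tendsto_pow_atTop_atTop_of_one_lt (Real.one_lt_rpow (by norm_num) (by norm_num))
    filter_upwards [h1.eventually_ge_atTop M] with n hn
    rwa [Real.rpow_mul (by norm_num), Real.rpow_natCast]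
  filter_upwards [hev, eventually_gt_atTop 0] with n hn hn0 G hG hI g hg hg1 htr X hX hGX
  have hn0' : (0 : ℝ) < n := by exact_mod_cast hn0
  have hs0 : 0 < Real.sin (Real.pi / 3 / 2) := by rw [sin_kiss]; norm_num
  have hK : (1 : ℝ) ≤ (2 : ℝ) ^ (397 / 1000 : ℝ) := Real.one_le_rpow (by norm_num) (by norm_num)
  have h1 := irr_general hs0 hI hg hg1 (c := n / 35) (by positivity)
    (by
      rw [sin_kiss, div_le_div_iff₀ (by norm_num) (by norm_num)]
      nlinarith)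
    hX hGX (M := M) (K := (2 : ℝ) ^ (397 / 1000 : ℝ)) (y := 1 / 32) hK (by norm_num) (by norm_num)
    (by linarith) (fun i _ => hM i)
  have h2 : (1 / 32 / (2 : ℝ) ^ (397 / 1000 : ℝ)) ^ ((n : ℝ) / 35) =
      (2 : ℝ) ^ (-(5397 / 35000 : ℝ) * n) := by
    have h3 : (1 / 32 / (2 : ℝ) ^ (397 / 1000 : ℝ)) = (2 : ℝ) ^ (-(5397 / 1000 : ℝ)) := by
      rw [show -(5397 / 1000 : ℝ) = -5 - 397 / 1000 by norm_num, Real.rpow_sub (by norm_num)]
      congr 1
      rw [show (-5 : ℝ) = ((-5 : ℤ) : ℝ) by norm_num, Real.rpow_intCast]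
      norm_num
    rw [h3, ← Real.rpow_mul (by norm_num)]
    congr 1
    ring
  have h4 : (1 + 1 / 32 : ℝ) ^ n ≤ (2 : ℝ) ^ ((9 / 200 : ℝ) * n) := by
    rw [Real.rpow_mul (by norm_num), Real.rpow_natCast]
    apply pow_le_pow_left₀ (by norm_num)
    have h5 : (1 + 1 / 32 : ℝ) ^ (200 : ℕ) ≤ ((2 : ℝ) ^ (9 / 200 : ℝ)) ^ (200 : ℕ) := by
      rw [← Real.rpow_natCast ((2 : ℝ) ^ (9 / 200 : ℝ)), ← Real.rpow_mul (by norm_num)]
      norm_num
    exact le_of_pow_le_pow_left₀ (by norm_num) (by positivity) h5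
  rw [h2] at h1
  have h6 : (X.card : ℝ) ≤ (2 : ℝ) ^ ((3 / 1000 : ℝ) * n) * (2 : ℝ) ^ ((9 / 200 : ℝ) * n) *
      (2 : ℝ) ^ ((5397 / 35000 : ℝ) * n) := by
    have h7 : (X.card : ℝ) = X.card * (2 : ℝ) ^ (-(5397 / 35000 : ℝ) * n) *
        (2 : ℝ) ^ ((5397 / 35000 : ℝ) * n) := by
      rw [mul_assoc, ← Real.rpow_add (by norm_num)]
      have : -(5397 / 35000 : ℝ) * n + 5397 / 35000 * n = 0 := by ring
      rw [this, Real.rpow_zero, mul_one]
    rw [h7]
    apply mul_le_mul_of_nonneg_right _ (by positivity)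
    exact h1.trans (mul_le_mul hn h4 (by positivity) (by positivity))
  rw [← Real.rpow_add (by norm_num), ← Real.rpow_add (by norm_num)] at h6
  have h8 := Pool.Agent.H161R2.KissSym.wyner' n hn0
  calc (X.card : ℝ) ≤ _ := h6
    _ ≤ (2 : ℝ) ^ (-(n : ℝ) / 200 + (83 / 400 : ℝ) * n) := by
        apply Real.rpow_le_rpow_of_exponent_le (by norm_num)
        nlinarith
    _ = (2 : ℝ) ^ (-(n : ℝ) / 200) * (2 : ℝ) ^ ((83 / 400 : ℝ) * n) := by
        rw [Real.rpow_add (by norm_num)]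
    _ ≤ _ := mul_le_mul_of_nonneg_left h8 (by positivity)

/-- the bound in terms of the inner products -/
theorem irreducible' {n : ℕ} {s : ℝ} (h0 : -1 ≤ s) (h1 : s < 1) {G : Subgroup (Isom n)} (hG : Finite G)
    (hI : Irreducible G) {g : Isom n} (hg : g ∈ G) (hg1 : g ≠ 1) {c : ℝ}
    (hc : (n - tr g) / (1 - s) ≤ c) (hcn : c ≤ n) {X : Finset (E n)}
    (hX : ∀ x ∈ X, ‖x‖ = 1) (hX' : ∀ x ∈ X, ∀ y ∈ X, x ≠ y → inner ℝ x y ≤ s)
    (hGX : ∀ h ∈ G, ∀ x ∈ X, h x ∈ X) :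
    (X.card : ℝ) ≤ (Real.exp 1 * (2 + √(2 / (1 - s))) * n / c) ^ c := by
  have hcos : Real.cos (Real.arccos s) = s := Real.cos_arccos h0 h1.le
  have h01 : 0 < Real.arccos s := Real.arccos_pos.2 h1
  have h02 : Real.arccos s ≤ Real.pi := Real.arccos_le_pi s
  have hs0 : 0 < Real.sin (Real.arccos s / 2) :=
    Real.sin_pos_of_pos_of_lt_pi (by linarith) (by linarith [Real.pi_pos])
  have hsq : Real.sin (Real.arccos s / 2) ^ 2 = (1 - s) / 2 := by
    have h2 := Real.cos_sq (Real.arccos s / 2)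
    rw [mul_div_cancel₀ _ (two_ne_zero), hcos] at h2
    have h3 := Real.sin_sq_add_cos_sq (Real.arccos s / 2)
    linarith
  have hsin : Real.sin (Real.arccos s / 2) = √((1 - s) / 2) := by
    rw [← hsq, Real.sqrt_sq hs0.le]
  have hK : Pool.Agent.H58.SK.cst (Real.arccos s) = 2 + √(2 / (1 - s)) := by
    rw [Pool.Agent.H58.SK.cst, add_div, mul_div_assoc, div_self hs0.ne', mul_one, add_comm, hsin]
    congr 1
    rw [one_div, ← Real.sqrt_inv, inv_div]
  rw [← hK]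
  refine irreducible hs0 hG hI hg hg1 ?_ hcn ⟨hX, ?_⟩ hGX
  · rw [hsq, show 2 * ((1 - s) / 2) = 1 - s by ring]
    exact hc
  · intro x hx y hy hxy
    rw [hcos]
    exact hX' x hx y hy hxy

end Pool.Agent.H58.SG.Irred
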